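import Pool.Agent.Helper64.HZ.GrLib3

/-!
# HZ, module DEL: the operator `∂` is invertible
-/

set_option autoImplicit false

open MulAction Pointwise

namespace Pool.Agent.Helper93.HZ

/-! ### Fields on trees have no closed orbits -/

theorem del_walk {U : Type} {T : SimpleGraph U} {N : U → U} (hN : IsField T N) :
    ∀ (d : ℕ) (u : U), (∀ i < d, N (N^[i] u) ≠ N^[i] u) →
      ∃ p : T.Walk u (N^[d] u), p.length = d ∧ List.IsChain (· ≠ ·) p.edges ∧
        ∀ e ∈ p.edges.head?, e = s(u, N u) := by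
  intro d
  induction d with
  | zero =>
    intro u _
    exact ⟨SimpleGraph.Walk.nil, rfl, by simp, by simp⟩
  | succ d ih =>
    intro u hu
    have h0 : N u ≠ u := by
      have := hu 0 (Nat.succ_pos d)
      simpa using this
    have ha : T.Adj u (N u) := (hN.1 u).resolve_left h0
    obtain ⟨p, p1, p2, p3⟩ := ih (N u) (fun i hi => by
      have := hu (i + 1) (by omega)
      rwa [Function.iterate_succ_apply] at this)
    refine ⟨(SimpleGraph.Walk.cons ha p).copy rfl (Function.iterate_succ_apply N d u).symm,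
      ?_, ?_, ?_⟩
    · rw [SimpleGraph.Walk.length_copy, SimpleGraph.Walk.length_cons, p1]
    · rw [SimpleGraph.Walk.edges_copy, SimpleGraph.Walk.edges_cons, List.isChain_cons]
      refine ⟨fun e he hc => ?_, p2⟩
      have h1 := p3 e he
      rw [← hc] at h1
      have h2 : N (N u) ≠ u := (hN.2 u (N u) ha).1 rfl
      rw [Sym2.eq_iff] at h1
      rcases h1 with ⟨h3, -⟩ | ⟨h3, -⟩
      · exact h0 h3.symm
      · exact h2 h3.symm
    · rw [SimpleGraph.Walk.edges_copy, SimpleGraph.Walk.edges_cons]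
      intro e he
      simpa using he.symm

theorem del_noclosed {U : Type} {T : SimpleGraph U} (hT : T.IsAcyclic) {N : U → U}
    (hN : IsField T N) {d : ℕ} {u : U} (hu : ∀ i < d, N (N^[i] u) ≠ N^[i] u)
    (h : N^[d] u = u) : d = 0 := by
  obtain ⟨p, p1, p2, -⟩ := del_walk hN d u hu
  have hp := (hT.isPath_iff_isChain p).2 p2
  have hq : (p.copy rfl h).IsPath := by
    rw [SimpleGraph.Walk.isPath_copy]; exact hp
  have h3 := SimpleGraph.Walk.length_eq_zero_iff.2 (SimpleGraph.Walk.isPath_iff_nil.1 hq)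
  rw [SimpleGraph.Walk.length_copy, p1] at h3
  exact h3

/-! ### The algebra of `L2Map` -/

section algebra

variable {G : Type} [Group G] {Y : Type} [MulAction G Y] {NY : Set Y}

theorem del_L2_one : L2Map G NY (1 : Module.End ℝ (Y → ℝ)) := by
  refine ⟨fun b hb y hy => hb y hy, fun g b hb => rfl, 1, fun b hb hs => ⟨hs, ?_⟩⟩
  rw [one_mul]
  exact le_refl _

theorem del_L2_neg {Φ : Module.End ℝ (Y → ℝ)} (h : L2Map G NY Φ) : L2Map G NY (-Φ) := by
  obtain ⟨C, hC⟩ := h.bdd
  refine ⟨fun b hb y hy => ?_, fun g b hb => ?_, C, fun b hb hs => ?_⟩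
  · show -(Φ b y) = 0
    rw [h.supp b hb y hy, neg_zero]
  · show -(Φ fun y => b (g • y)) = fun y => -(Φ b (g • y))
    rw [h.equi g b hb]
    rfl
  · have e : (fun y => ((-Φ : Module.End ℝ (Y → ℝ)) b y) ^ 2) = fun y => Φ b y ^ 2 := by
      funext y
      show (-(Φ b y)) ^ 2 = _
      ring
    rw [e]
    exact hC b hb hs

theorem del_L2_add {Φ Φ' : Module.End ℝ (Y → ℝ)} (h : L2Map G NY Φ) (h' : L2Map G NY Φ') :
    L2Map G NY (Φ + Φ') := by
  obtain ⟨C, hC⟩ := h.bdd
  obtain ⟨C', hC'⟩ := h'.bdd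
  refine ⟨fun b hb y hy => ?_, fun g b hb => ?_, 2 * C + 2 * C', fun b hb hs => ?_⟩
  · show Φ b y + Φ' b y = 0
    rw [h.supp b hb y hy, h'.supp b hb y hy, add_zero]
  · show (Φ fun y => b (g • y)) + (Φ' fun y => b (g • y)) = fun y => Φ b (g • y) + Φ' b (g • y)
    rw [h.equi g b hb, h'.equi g b hb]
    rfl
  · obtain ⟨s1, t1⟩ := hC b hb hs
    obtain ⟨s2, t2⟩ := hC' b hb hs
    have s3 : Summable fun y => 2 * Φ b y ^ 2 + 2 * Φ' b y ^ 2 :=
      (s1.mul_left 2).add (s2.mul_left 2)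
    have hle : ∀ y, ((Φ + Φ' : Module.End ℝ (Y → ℝ)) b y) ^ 2 ≤
        2 * Φ b y ^ 2 + 2 * Φ' b y ^ 2 := by
      intro y
      show (Φ b y + Φ' b y) ^ 2 ≤ _
      nlinarith [sq_nonneg (Φ b y - Φ' b y)]
    have s4 : Summable fun y => ((Φ + Φ' : Module.End ℝ (Y → ℝ)) b y) ^ 2 :=
      Summable.of_nonneg_of_le (fun y => sq_nonneg _) hle s3
    refine ⟨s4, ?_⟩
    calc ∑' y, ((Φ + Φ' : Module.End ℝ (Y → ℝ)) b y) ^ 2
        ≤ ∑' y, (2 * Φ b y ^ 2 + 2 * Φ' b y ^ 2) := s4.tsum_le_tsum hle s3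
      _ = 2 * ∑' y, Φ b y ^ 2 + 2 * ∑' y, Φ' b y ^ 2 := by
          rw [(s1.mul_left 2).tsum_add (s2.mul_left 2), tsum_mul_left, tsum_mul_left]
      _ ≤ 2 * (C * ∑' y, b y ^ 2) + 2 * (C' * ∑' y, b y ^ 2) := by linarith
      _ = _ := by ring

theorem del_L2_mul {Φ Φ' : Module.End ℝ (Y → ℝ)} (h : L2Map G NY Φ) (h' : L2Map G NY Φ') :
    L2Map G NY (Φ * Φ') := by
  obtain ⟨C, hC⟩ := h.bdd
  obtain ⟨C', hC'⟩ := h'.bdd
  refine ⟨fun b hb y hy => ?_, fun g b hb => ?_, max C 0 * C', fun b hb hs => ?_⟩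
  · show Φ (Φ' b) y = 0
    exact h.supp _ (h'.supp b hb) y hy
  · show Φ (Φ' fun y => b (g • y)) = fun y => Φ (Φ' b) (g • y)
    rw [h'.equi g b hb, h.equi g _ (h'.supp b hb)]
  · obtain ⟨s1, t1⟩ := hC' b hb hs
    obtain ⟨s2, t2⟩ := hC (Φ' b) (h'.supp b hb) s1
    refine ⟨s2, ?_⟩
    have h0 : 0 ≤ ∑' y, Φ' b y ^ 2 := tsum_nonneg fun y => sq_nonneg _
    calc ∑' y, ((Φ * Φ' : Module.End ℝ (Y → ℝ)) b y) ^ 2
        ≤ C * ∑' y, Φ' b y ^ 2 := t2
      _ ≤ max C 0 * ∑' y, Φ' b y ^ 2 := mul_le_mul_of_nonneg_right (le_max_left _ _) h0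
      _ ≤ max C 0 * (C' * ∑' y, b y ^ 2) := mul_le_mul_of_nonneg_left t1 (le_max_right _ _)
      _ = _ := by ring

theorem del_L2_pow {Φ : Module.End ℝ (Y → ℝ)} (h : L2Map G NY Φ) (k : ℕ) :
    L2Map G NY (Φ ^ k) := by
  induction k with
  | zero => rw [pow_zero]; exact del_L2_one
  | succ k ih => rw [pow_succ]; exact del_L2_mul ih h

theorem del_L2_sum {Φ : Module.End ℝ (Y → ℝ)} (h : L2Map G NY Φ) (n : ℕ) :
    L2Map G NY (∑ k ∈ Finset.range (n + 1), Φ ^ k) := by
  induction n with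
  | zero =>
    rw [Finset.sum_range_one, pow_zero]
    exact del_L2_one
  | succ n ih =>
    rw [Finset.sum_range_succ]
    exact del_L2_add ih (del_L2_pow h _)

open Classical in
/-- the weighted partial shift -/
noncomputable def del_sh (S : Set Y) (f : Y → Y) (c : Y → ℝ) : Module.End ℝ (Y → ℝ) where
  toFun b y := if y ∈ S then c y * b (f y) else 0
  map_add' b b' := by
    funext y
    show (if y ∈ S then c y * (b (f y) + b' (f y)) else 0) = _
    by_cases h : y ∈ S
    · simp [h, mul_add]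
    · simp [h]
  map_smul' r b := by
    funext y
    show (if y ∈ S then c y * (r * b (f y)) else 0) = _
    by_cases h : y ∈ S
    · simp [h]; ring
    · simp [h]

open Classical in
theorem del_sh_apply (S : Set Y) (f : Y → Y) (c : Y → ℝ) (b : Y → ℝ) (y : Y) :
    del_sh S f c b y = if y ∈ S then c y * b (f y) else 0 := rfl

theorem del_L2_sh (S : Set Y) (f : Y → Y) (c : Y → ℝ) (hS : S ⊆ NY)
    (hSg : ∀ (g : G) (y : Y), g • y ∈ S ↔ y ∈ S) (hf : ∀ (g : G) (y : Y), f (g • y) = g • f y)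
    (hc : ∀ (g : G) (y : Y), c (g • y) = c y) (hc1 : ∀ y, c y ^ 2 ≤ 1) (hi : Set.InjOn f S) :
    L2Map G NY (del_sh S f c) := by
  classical
  refine ⟨fun b hb y hy => ?_, fun g b hb => ?_, 1, fun b hb hs => ?_⟩
  · rw [del_sh_apply, if_neg (fun h => hy (hS h))]
  · funext y
    rw [del_sh_apply, del_sh_apply, hf, hc]
    by_cases h : y ∈ S
    · rw [if_pos h, if_pos ((hSg g y).2 h)]
    · rw [if_neg h, if_neg (fun h' => h ((hSg g y).1 h'))]
  · let i : S → Y := fun s => f s
    have hinj : Function.Injective i := by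
      intro s s' h
      exact Subtype.ext (hi s.2 s'.2 h)
    have s1 : Summable ((fun y => b y ^ 2) ∘ i) := hs.comp_injective hinj
    have s2 : Summable (S.indicator fun y => b (f y) ^ 2) :=
      summable_subtype_iff_indicator.1 s1
    have hle : ∀ y, (del_sh S f c b y) ^ 2 ≤ S.indicator (fun y => b (f y) ^ 2) y := by
      intro y
      rw [del_sh_apply]
      by_cases h : y ∈ S
      · rw [if_pos h, Set.indicator_of_mem h, mul_pow]
        nlinarith [hc1 y, sq_nonneg (b (f y))]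
      · rw [if_neg h, Set.indicator_of_notMem h]
        norm_num
    have s3 : Summable fun y => (del_sh S f c b y) ^ 2 :=
      Summable.of_nonneg_of_le (fun y => sq_nonneg _) hle s2
    refine ⟨s3, ?_⟩
    rw [one_mul]
    calc ∑' y, (del_sh S f c b y) ^ 2 ≤ ∑' y, S.indicator (fun y => b (f y) ^ 2) y :=
          s3.tsum_le_tsum hle s2
      _ = ∑' s : S, ((fun y => b y ^ 2) ∘ i) s :=
          (tsum_subtype S fun y => b (f y) ^ 2).symm
      _ ≤ ∑' y, b y ^ 2 := tsum_comp_le_tsum_of_inj hs (fun y => sq_nonneg _) hinj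

end algebra

/-! ### Bands -/

open Ctx

variable {G : Type} [Group G] (X : Ctx G)

/-- the next band towards the center -/
def del_nx (b : Band G X) : Band G X := ⟨b.x, b.y, b.z, X.P.N b.y b.w, b.o⟩

theorem del_nx_smul (g : G) (b : Band G X) : del_nx X (g • b) = g • del_nx X b := by
  show (⟨g • b.x, g • b.y, g • b.z, X.P.N (g • b.y) (g • b.w), b.o⟩ : Band G X) =
    ⟨g • b.x, g • b.y, g • b.z, g • X.P.N b.y b.w, b.o⟩
  rw [X.P.eN]

theorem del_nx_iter (j : ℕ) (b : Band G X) :
    (del_nx X)^[j] b = ⟨b.x, b.y, b.z, (X.P.N b.y)^[j] b.w, b.o⟩ := by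
  induction j with
  | zero => rfl
  | succ j ih =>
    rw [Function.iterate_succ_apply', ih, Function.iterate_succ_apply']
    rfl

theorem del_iter_smul (g : G) (j : ℕ) (b : Band G X) :
    (del_nx X)^[j] (g • b) = g • (del_nx X)^[j] b := by
  induction j generalizing b with
  | zero => rfl
  | succ j ih =>
    rw [Function.iterate_succ_apply, Function.iterate_succ_apply, del_nx_smul, ih]

theorem del_BN_iff (g : G) (b : Band G X) : g • b ∈ X.BN ↔ b ∈ X.BN := by
  constructor
  · intro h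
    have := gr_BN_smul X g⁻¹ h
    rwa [inv_smul_smul] at this
  · exact gr_BN_smul X g

theorem del_back {b : Band G X} (hb : b ∈ X.BN) : X.P.N b.x (X.P.N b.y b.w) = b.w :=
  (gr_BN_cross X hb).1.2.1

theorem del_nx_inj {b b' : Band G X} (hb : b ∈ X.BN) (hb' : b' ∈ X.BN)
    (h : del_nx X b = del_nx X b') : b = b' := by
  obtain ⟨x, y, z, w, o⟩ := b
  obtain ⟨x', y', z', w', o'⟩ := b'
  have h1 := del_back X hb
  have h2 := del_back X hb'
  simp only [del_nx, Band.mk.injEq] at h
  obtain ⟨rfl, rfl, rfl, h3, rfl⟩ := h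
  simp only at h1 h2
  rw [h3, h2] at h1
  rw [h1]

/-- chains of bands are finite -/
theorem del_chain_fin (hHON : ST_HON) (b : Band G X) : ∃ j, (del_nx X)^[j] b ∉ X.BN := by
  by_contra hcon
  push Not at hcon
  have hA := (gr_Hon_finite X hHON b.x b.y).union (gr_Hon_finite X hHON b.x b.z)
  have hmem : ∀ j : ℕ, (X.P.N b.y)^[j] b.w ∈
      {u : X.U | X.FC2 b.x b.y ∧ X.Hon b.x b.y u} ∪
        {u : X.U | X.FC2 b.x b.z ∧ X.Hon b.x b.z u} := by
    intro j
    have h := hcon j
    rw [del_nx_iter] at h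
    have ha := gr_tri_adj3 X h.1
    have hc := gr_BN_cross X h
    rcases h.2.2.2.2 with h5 | h5
    · exact Or.inl ⟨⟨ha.1, h5.1, gr_Cross_ne X hc.1⟩, h5.2⟩
    · exact Or.inr ⟨⟨ha.2.1, h5.1, gr_Cross_ne X hc.2⟩, h5.2⟩
  have hne : ∀ j : ℕ, X.P.N b.y ((X.P.N b.y)^[j] b.w) ≠ (X.P.N b.y)^[j] b.w := by
    intro j
    have h := hcon j
    rw [del_nx_iter] at h
    exact h.2.2.1
  have hinj : Function.Injective fun j : ℕ => (X.P.N b.y)^[j] b.w := by
    have key : ∀ i j : ℕ, i ≤ j → (X.P.N b.y)^[i] b.w = (X.P.N b.y)^[j] b.w → i = j := by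
      intro i j hij h
      have h1 : (X.P.N b.y)^[j - i] ((X.P.N b.y)^[i] b.w) = (X.P.N b.y)^[i] b.w := by
        rw [← Function.iterate_add_apply, Nat.sub_add_cancel hij]
        exact h.symm
      have h2 := del_noclosed X.D.tree.isAcyclic (X.P.fN b.y) (d := j - i)
        (u := (X.P.N b.y)^[i] b.w) (fun k _ => by
          rw [← Function.iterate_add_apply]; exact hne _) h1
      omega
    intro i j h
    rcases le_total i j with hij | hij
    · exact key i j hij h
    · exact (key j i hij h.symm).symm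
  exact Set.infinite_range_of_injective hinj (hA.subset (Set.range_subset_iff.2 hmem))

/-- uniform bound for the length of the chains -/
theorem del_chain_bound (hHON : ST_HON) :
    ∃ L : ℕ, ∀ b ∈ X.BN, ∃ j ≤ L, (del_nx X)^[j] b ∉ X.BN := by
  classical
  obtain ⟨F, hF1, hF2, hF3⟩ := gr_finOrb_rep (gr_BN_fin X hHON)
  choose m hm using del_chain_fin X hHON
  refine ⟨hF1.toFinset.sup m, fun b hb => ?_⟩
  obtain ⟨g, hg⟩ := hF3 b hb
  refine ⟨m (g • b), Finset.le_sup (f := m) (hF1.mem_toFinset.2 hg), fun h => ?_⟩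
  refine hm (g • b) ?_
  rw [del_iter_smul]
  exact gr_BN_smul X g h

open Classical in
/-- the sign -/
noncomputable def del_sg (b : Band G X) : ℝ := if X.D.arr b.w (X.P.N b.y b.w) then 1 else -1

theorem del_sg_smul (g : G) (b : Band G X) : del_sg X (g • b) = del_sg X b := by
  classical
  unfold del_sg
  have h : X.D.arr (g • b).w (X.P.N (g • b).y (g • b).w) ↔ X.D.arr b.w (X.P.N b.y b.w) := by
    show X.D.arr (g • b.w) (X.P.N (g • b.y) (g • b.w)) ↔ _
    rw [X.P.eN]
    constructor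
    · intro h
      have := X.D.arr_smul g⁻¹ _ _ h
      rwa [inv_smul_smul, inv_smul_smul] at this
    · exact X.D.arr_smul g _ _
  by_cases h1 : X.D.arr b.w (X.P.N b.y b.w)
  · rw [if_pos h1, if_pos (h.2 h1)]
  · rw [if_neg h1, if_neg (fun h2 => h1 (h.1 h2))]

theorem del_sg_sq (b : Band G X) : del_sg X b * del_sg X b = 1 := by
  classical
  unfold del_sg
  split_ifs <;> norm_num

/-- multiplication by the sign -/
noncomputable def del_E : Module.End ℝ (Band G X → ℝ) := del_sh X.BN id (del_sg X)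

/-- the set of bands whose successor is a band -/
def del_S : Set (Band G X) := {b | b ∈ X.BN ∧ del_nx X b ∈ X.BN}

noncomputable def del_T : Module.End ℝ (Band G X → ℝ) :=
  del_sh (del_S X) (del_nx X) fun _ => 1

theorem del_L2_E : L2Map G X.BN (del_E X) := by
  refine del_L2_sh _ _ _ (fun _ h => h) (del_BN_iff X) (fun g y => rfl) (del_sg_smul X)
    (fun y => ?_) (fun _ _ _ _ h => h)
  rw [pow_two, del_sg_sq]

theorem del_L2_T : L2Map G X.BN (del_T X) := by
  refine del_L2_sh _ _ _ (fun _ h => h.1) (fun g y => ?_) (del_nx_smul X) (fun _ _ => rfl)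
    (fun y => by norm_num) (fun b hb b' hb' h => del_nx_inj X hb.1 hb'.1 h)
  show (g • y ∈ X.BN ∧ del_nx X (g • y) ∈ X.BN) ↔ _
  rw [del_nx_smul, del_BN_iff, del_BN_iff]
  exact Iff.rfl

theorem del_EE (b : Band G X → ℝ) (hb : ∀ y ∉ X.BN, b y = 0) : del_E X (del_E X b) = b := by
  classical
  funext y
  unfold del_E
  rw [del_sh_apply]
  by_cases h : y ∈ X.BN
  · rw [if_pos h, del_sh_apply]
    simp only [id]
    rw [if_pos h, ← mul_assoc, del_sg_sq, one_mul]
  · rw [if_neg h, hb y h]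

theorem del_T_pow (f : Band G X → ℝ) : ∀ (k : ℕ) (y : Band G X), ((del_T X) ^ (k + 1)) f y ≠ 0 →
    ∀ j ≤ k + 1, (del_nx X)^[j] y ∈ X.BN := by
  classical
  intro k
  induction k with
  | zero =>
    intro y h j hj
    rw [zero_add, pow_one] at h
    have hy : y ∈ del_S X := by
      by_contra hc
      exact h (by unfold del_T; rw [del_sh_apply, if_neg hc])
    rcases Nat.lt_or_ge j 1 with h1 | h1
    · have : j = 0 := by omega
      subst this
      exact hy.1
    · have : j = 1 := by omega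
      subst this
      exact hy.2
  | succ k ih =>
    intro y h j hj
    rw [pow_succ'] at h
    have hy : y ∈ del_S X := by
      by_contra hc
      exact h (by
        show del_T X (((del_T X) ^ (k + 1)) f) y = 0
        unfold del_T; rw [del_sh_apply, if_neg hc])
    have h2 : ((del_T X) ^ (k + 1)) f (del_nx X y) ≠ 0 := by
      intro hc
      apply h
      show del_T X (((del_T X) ^ (k + 1)) f) y = 0
      rw [del_T, del_sh_apply, if_pos hy, ← del_T, hc, mul_zero]
    cases j with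
    | zero => exact hy.1
    | succ j =>
      rw [Function.iterate_succ_apply]
      exact ih _ h2 j (by omega)

theorem st_DEL (hHON : ST_HON) : ST_DEL := by
  classical
  intro G _ X
  obtain ⟨L, hL⟩ := del_chain_bound X hHON
  have hnil : (del_T X) ^ (L + 1) = 0 := by
    apply LinearMap.ext
    intro f
    funext y
    show ((del_T X) ^ (L + 1)) f y = 0
    by_contra hc
    have h := del_T_pow X f L y hc
    obtain ⟨j, hj, hj'⟩ := hL y (h 0 (by omega))
    exact hj' (h j (by omega))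
  set R : Module.End ℝ (Band G X → ℝ) := ∑ k ∈ Finset.range (L + 1), (del_T X) ^ k with hR
  have hTR : (1 - del_T X) * R = 1 := by
    rw [hR, mul_neg_geom_sum, hnil, sub_zero]
  have hRT : R * (1 - del_T X) = 1 := by
    rw [hR, geom_sum_mul_neg, hnil, sub_zero]
  have h1T : L2Map G X.BN (1 - del_T X) := by
    rw [sub_eq_add_neg]
    exact del_L2_add del_L2_one (del_L2_neg (del_L2_T X))
  have hRL : L2Map G X.BN R := del_L2_sum (del_L2_T X) L
  refine ⟨del_E X * (1 - del_T X), R * del_E X, ?_, del_L2_mul (del_L2_E X) h1T,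
    del_L2_mul hRL (del_L2_E X), ?_⟩
  · intro f
    funext b
    show del_E X ((1 - del_T X) f) b = X.del f b
    rw [del_E, del_sh_apply]
    unfold Ctx.del
    by_cases hb : b ∈ X.BN
    · rw [if_pos hb, if_pos hb]
      have e : ((1 - del_T X : Module.End ℝ (Band G X → ℝ)) f) (id b) =
          f b - (if (⟨b.x, b.y, b.z, X.P.N b.y b.w, b.o⟩ : Band G X) ∈ X.BN then
            f ⟨b.x, b.y, b.z, X.P.N b.y b.w, b.o⟩ else 0) := by
        show f b - del_T X f b = _
        rw [del_T, del_sh_apply]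
        by_cases hn : del_nx X b ∈ X.BN
        · rw [if_pos (show b ∈ del_S X from ⟨hb, hn⟩), one_mul]
          rw [if_pos (show (⟨b.x, b.y, b.z, X.P.N b.y b.w, b.o⟩ : Band G X) ∈ X.BN from hn)]
          rfl
        · rw [if_neg (show ¬ b ∈ del_S X from fun h => hn h.2)]
          rw [if_neg (show ¬ (⟨b.x, b.y, b.z, X.P.N b.y b.w, b.o⟩ : Band G X) ∈ X.BN from hn)]
      rw [e]
      rfl
    · rw [if_neg hb, if_neg hb]
  · intro b hb
    constructor
    · show R (del_E X (del_E X ((1 - del_T X) b))) = b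
      rw [del_EE X _ (h1T.supp b hb)]
      show (R * (1 - del_T X)) b = b
      rw [hRT]
      rfl
    · show del_E X ((1 - del_T X) (R (del_E X b))) = b
      have : (1 - del_T X) (R (del_E X b)) = del_E X b := by
        show ((1 - del_T X) * R) (del_E X b) = _
        rw [hTR]
        rfl
      rw [this, del_EE X b hb]

end Pool.Agent.Helper93.HZ
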